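import Mathlib

set_option autoImplicit false

/-! One-dimensional Gaussian tails. -/

namespace Pool.Agent.H32.RGG

open MeasureTheory ProbabilityTheory Set Real Filter

/-- The standard normal density. -/
noncomputable def phi (x : ℝ) : ℝ := gaussianPDFReal 0 1 x

/-- The standard normal upper tail. -/
noncomputable def Q (x : ℝ) : ℝ := (gaussianReal 0 1).real (Ici x)

lemma phi_eq (x : ℝ) : phi x = (√(2 * π))⁻¹ * exp (-x ^ 2 / 2) := by
  simp [phi, gaussianPDFReal]

lemma phi_pos (x : ℝ) : 0 < phi x := gaussianPDFReal_pos _ _ _ (by simp)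

lemma phi_cont : Continuous phi := by
  have : phi = fun x => (√(2 * π))⁻¹ * exp (-x ^ 2 / 2) := funext phi_eq
  rw [this]; fun_prop

lemma phi_integrable : Integrable phi := integrable_gaussianPDFReal 0 1

lemma phi_anti {x y : ℝ} (hx : 0 ≤ x) (hxy : x ≤ y) : phi y ≤ phi x := by
  rw [phi_eq, phi_eq]
  have : -y ^ 2 / 2 ≤ -x ^ 2 / 2 := by nlinarith
  gcongr

lemma phi_deriv (x : ℝ) : HasDerivAt phi (-(x * phi x)) x := by
  have h : phi = fun x => (√(2 * π))⁻¹ * exp (-x ^ 2 / 2) := funext phi_eq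
  have h1 : HasDerivAt (fun x : ℝ => -x ^ 2 / 2) (-x) x := by
    have := ((hasDerivAt_pow 2 x).neg).div_const 2
    refine HasDerivAt.congr_deriv this ?_
    norm_num
    ring
  have h2 := (h1.exp).const_mul (√(2 * π))⁻¹
  rw [h]
  refine HasDerivAt.congr_deriv h2 ?_
  simp only []
  ring

lemma Q_nonneg (x : ℝ) : 0 ≤ Q x := measureReal_nonneg

lemma Q_le_one (x : ℝ) : Q x ≤ 1 := measureReal_le_one

lemma Q_eq (x : ℝ) : Q x = ∫ s in Ioi x, phi s := by
  unfold Q Measure.real
  rw [gaussianReal_apply_eq_integral 0 (by simp : (1 : NNReal) ≠ 0), ENNReal.toReal_ofReal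
    (setIntegral_nonneg measurableSet_Ici fun s _ => gaussianPDFReal_nonneg _ _ _),
    integral_Ici_eq_integral_Ioi]
  rfl

lemma Q_sub {x y : ℝ} (h : x ≤ y) : Q x = (∫ s in x..y, phi s) + Q y := by
  rw [Q_eq, Q_eq, intervalIntegral.integral_interval_add_Ioi phi_integrable.integrableOn
    phi_integrable.integrableOn]

lemma Q_anti {x y : ℝ} (h : x ≤ y) : Q y ≤ Q x :=
  measureReal_mono (Ici_subset_Ici.2 h)

lemma Q_pos (x : ℝ) : 0 < Q x := by
  have h := Q_sub (le_add_of_nonneg_right (zero_le_one : (0:ℝ) ≤ 1) : x ≤ x + 1)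
  have h1 : 0 < ∫ s in x..(x+1), phi s := by
    apply intervalIntegral.intervalIntegral_pos_of_pos (phi_cont.intervalIntegrable _ _)
    · exact phi_pos
    · linarith
  have := Q_nonneg (x+1)
  linarith

lemma Q_le_exp {x : ℝ} (hx : 0 ≤ x) : Q x ≤ exp (-x ^ 2 / 2) := by
  have h := measure_ge_le_exp_mul_mgf (μ := gaussianReal 0 1) (X := id) x hx
    (by simpa using integrable_exp_mul_gaussianReal (μ := 0) (v := 1) x)
  rw [mgf_id_gaussianReal] at h
  have h2 : {ω : ℝ | x ≤ id ω} = Ici x := rfl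
  rw [h2] at h
  refine h.trans (le_of_eq ?_)
  rw [← exp_add]
  congr 1
  simp; ring

/-- Mills ratio lower bound. -/
lemma Q_ge_phi {x : ℝ} (hx : 0 ≤ x) : phi x / (x + 1) ≤ Q x := by
  have hder : ∀ s ∈ Ici x, HasDerivAt (fun s => -(phi s / (s + 1)))
      (phi s * ((s ^ 2 + s + 1) / (s + 1) ^ 2)) s := by
    intro s hs
    have hs0 : 0 ≤ s := hx.trans hs
    have h1 : HasDerivAt (fun s : ℝ => s + 1) 1 s := (hasDerivAt_id s).add_const 1
    have h2 : s + 1 ≠ 0 := by positivity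
    have := ((phi_deriv s).div h1 h2).neg
    refine HasDerivAt.congr_deriv this ?_
    field_simp
    ring
  have hpos : ∀ s ∈ Ioi x, 0 ≤ phi s * ((s ^ 2 + s + 1) / (s + 1) ^ 2) := by
    intro s hs
    have hs0 : 0 ≤ s := hx.trans (le_of_lt hs)
    have := (phi_pos s).le
    positivity
  have hlim : Tendsto (fun s => -(phi s / (s + 1))) atTop (nhds 0) := by
    have h0 : Tendsto (fun s : ℝ => (s + 1)⁻¹) atTop (nhds 0) :=
      tendsto_inv_atTop_zero.comp (tendsto_atTop_add_const_right _ _ tendsto_id)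
    have hb : Tendsto (fun s : ℝ => -((√(2 * π))⁻¹ * (s + 1)⁻¹)) atTop (nhds 0) := by
      simpa using (h0.const_mul (√(2 * π))⁻¹).neg
    refine tendsto_of_tendsto_of_tendsto_of_le_of_le' hb tendsto_const_nhds ?_ ?_
    · filter_upwards [eventually_ge_atTop (0:ℝ)] with s hs
      rw [div_eq_mul_inv]
      have : phi s ≤ (√(2 * π))⁻¹ := by
        rw [phi_eq]
        have : exp (-s ^ 2 / 2) ≤ 1 := by
          rw [exp_le_one_iff]; nlinarith [sq_nonneg s]
        have h3 : 0 ≤ (√(2 * π))⁻¹ := by positivity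
        nlinarith
      have h4 : 0 ≤ (s + 1)⁻¹ := by positivity
      nlinarith
    · filter_upwards [eventually_ge_atTop (0:ℝ)] with s hs
      have := (phi_pos s).le
      have : 0 ≤ phi s / (s + 1) := by positivity
      linarith
  have hint := integral_Ioi_of_hasDerivAt_of_nonneg' hder hpos hlim
  have hio := integrableOn_Ioi_deriv_of_nonneg' hder hpos hlim
  rw [Q_eq]
  have hle : ∫ s in Ioi x, phi s * ((s ^ 2 + s + 1) / (s + 1) ^ 2) ≤ ∫ s in Ioi x, phi s := by
    refine setIntegral_mono_on hio phi_integrable.integrableOn measurableSet_Ioi ?_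
    intro s hs
    have hs0 : 0 ≤ s := hx.trans (le_of_lt hs)
    have : (s ^ 2 + s + 1) / (s + 1) ^ 2 ≤ 1 := by
      rw [div_le_one (by positivity)]; nlinarith
    nlinarith [(phi_pos s).le]
  rw [hint] at hle
  simpa using hle

lemma Q_ge_exp {x : ℝ} (hx : 0 ≤ x) : exp (-x ^ 2 / 2) / (3 * (x + 1)) ≤ Q x := by
  refine le_trans ?_ (Q_ge_phi hx)
  rw [phi_eq]
  have h1 : √(2 * π) ≤ 3 := by
    rw [Real.sqrt_le_left (by norm_num)]
    nlinarith [Real.pi_lt_d2]
  have h2 : (3:ℝ)⁻¹ ≤ (√(2 * π))⁻¹ := by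
    apply inv_anti₀ (by positivity) h1
  have h3 : exp (-x ^ 2 / 2) / (3 * (x + 1)) = (3:ℝ)⁻¹ * exp (-x ^ 2 / 2) / (x + 1) := by
    field_simp
  rw [h3]
  gcongr

/-- Hazard rate bound. -/
lemma Q_hazard {x y : ℝ} (hx : 0 ≤ x) (hxy : x ≤ y) :
    Q x * (1 - (y - x) * (x + 1)) ≤ Q y := by
  have h1 := Q_sub hxy
  have h2 : ∫ s in x..y, phi s ≤ (y - x) * phi x := by
    have := intervalIntegral.integral_mono_on (μ := volume) (g := fun _ => phi x) hxy
      (phi_cont.intervalIntegrable x y) (continuous_const.intervalIntegrable x y)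
      (fun s hs => phi_anti hx hs.1)
    simpa using this
  have h3 := Q_ge_phi hx
  rw [div_le_iff₀ (by positivity)] at h3
  nlinarith

end Pool.Agent.H32.RGG
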