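import Mathlib
import Pool.Agent.H32.RGG.Tail

set_option autoImplicit false

/-! Two-dimensional Gaussian tails. -/

namespace Pool.Agent.H32.RGG

open MeasureTheory ProbabilityTheory Set Real Filter InnerProductSpace
open scoped RealInnerProductSpace

variable {E : Type*} [NormedAddCommGroup E] [InnerProductSpace ℝ E] [FiniteDimensional ℝ E]
  [MeasurableSpace E] [BorelSpace E]

lemma law_inner {u : E} (hu : ‖u‖ = 1) :
    (stdGaussian E).map (fun z => ⟪u, z⟫) = gaussianReal 0 1 := by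
  have h := IsGaussian.map_eq_gaussianReal (μ := stdGaussian E) (innerSL ℝ u)
  have h1 : (fun z : E => ⟪u, z⟫) = (innerSL ℝ u : E → ℝ) := by ext z; simp
  rw [h1, h, integral_strongDual_stdGaussian, variance_dual_stdGaussian]
  simp [hu]

lemma law_pair {u w : E} (hu : ‖u‖ = 1) (hw : ‖w‖ = 1) (huw : ⟪u, w⟫ = 0) :
    (stdGaussian E).map (fun z => (⟪u, z⟫, ⟪w, z⟫)) =
      (gaussianReal 0 1).prod (gaussianReal 0 1) := by
  have hL : HasGaussianLaw (fun z : E => (⟪u, z⟫, ⟪w, z⟫)) (stdGaussian E) := by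
    constructor
    exact inferInstanceAs (IsGaussian (Measure.map
      (⇑((innerSL ℝ u).prod (innerSL ℝ w) : E →L[ℝ] ℝ × ℝ)) (stdGaussian E)))
  have hc : cov[fun z : E => ⟪u, z⟫, fun z : E => ⟪w, z⟫; stdGaussian E] = 0 := by
    rw [← covarianceBilin_apply_eq_cov IsGaussian.memLp_two_id, covarianceBilin_stdGaussian,
      innerSL_apply_apply]
    exact huw
  have hi := hL.indepFun_of_covariance_eq_zero hc
  rw [(indepFun_iff_map_prod_eq_prod_map_map (by fun_prop) (by fun_prop)).1 hi,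
    law_inner hu, law_inner hw]

lemma tail_one {u : E} (hu : ‖u‖ = 1) (a : ℝ) :
    (stdGaussian E).real {z | a ≤ ⟪u, z⟫} = Q a := by
  rw [Q, ← law_inner hu, map_measureReal_apply (by fun_prop) measurableSet_Ici]
  rfl

/-- The inner threshold. -/
noncomputable def kk (a ρ x : ℝ) : ℝ := (a - ρ * x) / √(1 - ρ ^ 2)

/-- The two-dimensional tail. -/
noncomputable def Q2 (a ρ : ℝ) : ℝ := ∫ x in Ioi a, phi x * Q (kk a ρ x)

lemma Q_meas : Measurable Q := (antitone_iff_forall_lt.2 (fun x y h => Q_anti h.le)).measurable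

lemma tail_two {u v : E} (hu : ‖u‖ = 1) (hv : ‖v‖ = 1) (a : ℝ) (h : |⟪u, v⟫| < 1) :
    (stdGaussian E).real {z | a ≤ ⟪u, z⟫ ∧ a ≤ ⟪v, z⟫} = Q2 a ⟪u, v⟫ := by
  set ρ := ⟪u, v⟫ with hρ
  have hρ2 : 0 < 1 - ρ ^ 2 := by
    have := abs_lt.1 h
    nlinarith
  set s := √(1 - ρ ^ 2) with hs
  have hs0 : 0 < s := Real.sqrt_pos.2 hρ2
  have hs2 : s ^ 2 = 1 - ρ ^ 2 := Real.sq_sqrt hρ2.le
  set w : E := s⁻¹ • (v - ρ • u) with hwdef
  have huu : ⟪u, u⟫ = 1 := by rw [real_inner_self_eq_norm_sq, hu]; norm_num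
  have hvv : ⟪v, v⟫ = 1 := by rw [real_inner_self_eq_norm_sq, hv]; norm_num
  have huw : ⟪u, w⟫ = 0 := by
    rw [hwdef, inner_smul_right, inner_sub_right, inner_smul_right, huu, ← hρ]
    ring
  have hw : ‖w‖ = 1 := by
    have h1 : ⟪w, w⟫ = 1 := by
      rw [hwdef, inner_smul_right, inner_smul_left, inner_sub_left, inner_sub_right,
        inner_sub_right, inner_smul_right, inner_smul_left, inner_smul_left, inner_smul_right,
        huu, hvv, real_inner_comm u v, ← hρ]
      simp only [conj_trivial]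
      field_simp
      rw [hs2]; ring
    rw [real_inner_self_eq_norm_sq] at h1
    have := norm_nonneg w
    nlinarith
  have hvdec : ∀ z : E, ⟪v, z⟫ = ρ * ⟪u, z⟫ + s * ⟪w, z⟫ := by
    intro z
    rw [hwdef, inner_smul_left, inner_sub_left, inner_smul_left]
    simp only [conj_trivial]
    field_simp
    ring
  have hset : {z : E | a ≤ ⟪u, z⟫ ∧ a ≤ ⟪v, z⟫} =
      (fun z => (⟪u, z⟫, ⟪w, z⟫)) ⁻¹' {q : ℝ × ℝ | a ≤ q.1 ∧ kk a ρ q.1 ≤ q.2} := by
    ext z
    simp only [mem_setOf_eq, mem_preimage, kk, ← hs]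
    rw [hvdec z, div_le_iff₀ hs0]
    constructor
    · rintro ⟨h1, h2⟩; exact ⟨h1, by linarith⟩
    · rintro ⟨h1, h2⟩; exact ⟨h1, by linarith⟩
  have hkm : Measurable (kk a ρ) := by unfold kk; fun_prop
  have hm : MeasurableSet {q : ℝ × ℝ | a ≤ q.1 ∧ kk a ρ q.1 ≤ q.2} := by
    apply MeasurableSet.inter
    · exact measurableSet_le measurable_const measurable_fst
    · exact measurableSet_le (hkm.comp measurable_fst) measurable_snd
  rw [hset, ← map_measureReal_apply (by fun_prop) hm, law_pair hu hw huw]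
  rw [measureReal_def, Measure.prod_apply hm]
  have hfib : ∀ x : ℝ, (gaussianReal 0 1) (Prod.mk x ⁻¹' {q : ℝ × ℝ | a ≤ q.1 ∧ kk a ρ q.1 ≤ q.2})
      = (Ici a).indicator (fun x => ENNReal.ofReal (Q (kk a ρ x))) x := by
    intro x
    by_cases hx : a ≤ x
    · rw [indicator_of_mem (by exact hx)]
      have : Prod.mk x ⁻¹' {q : ℝ × ℝ | a ≤ q.1 ∧ kk a ρ q.1 ≤ q.2} = Ici (kk a ρ x) := by
        ext y; simp [hx]
      rw [this, Q, ofReal_measureReal]
    · rw [indicator_of_notMem (by exact hx)]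
      have : Prod.mk x ⁻¹' {q : ℝ × ℝ | a ≤ q.1 ∧ kk a ρ q.1 ≤ q.2} = ∅ := by
        ext y; simp [hx]
      rw [this, measure_empty]
  simp_rw [hfib]
  have hmg : Measurable (fun x => ENNReal.ofReal (Q (kk a ρ x))) :=
    (Q_meas.comp hkm).ennreal_ofReal
  rw [lintegral_indicator measurableSet_Ici, gaussianReal_of_var_ne_zero 0 (by simp),
    setLIntegral_withDensity_eq_setLIntegral_mul _ (measurable_gaussianPDF 0 1)
      hmg measurableSet_Ici]
  have hcongr : ∀ x : ℝ, (gaussianPDF 0 1 * fun x => ENNReal.ofReal (Q (kk a ρ x))) x =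
      ENNReal.ofReal (phi x * Q (kk a ρ x)) := by
    intro x
    rw [Pi.mul_apply, ENNReal.ofReal_mul (phi_pos x).le]
    rfl
  simp_rw [hcongr]
  rw [← ofReal_integral_eq_lintegral_ofReal, ENNReal.toReal_ofReal, integral_Ici_eq_integral_Ioi]
  · rfl
  · exact setIntegral_nonneg measurableSet_Ici fun x _ =>
      mul_nonneg (phi_pos x).le (Q_nonneg _)
  · refine Integrable.mono' phi_integrable.integrableOn ?_ ?_
    · exact (phi_cont.measurable.mul (Q_meas.comp hkm)).aestronglyMeasurable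
    · refine ae_of_all _ fun x => ?_
      rw [norm_mul, Real.norm_of_nonneg (phi_pos x).le, Real.norm_of_nonneg (Q_nonneg _)]
      exact mul_le_of_le_one_right (phi_pos x).le (Q_le_one _)
  · exact ae_of_all _ fun x => mul_nonneg (phi_pos x).le (Q_nonneg _)

end Pool.Agent.H32.RGG
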