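import Mathlib
import Pool.Agent.H32.RGG.Pair

set_option autoImplicit false

/-! Plackett-type bound for the bivariate Gaussian tail. -/

namespace Pool.Agent.H32.RGG

open MeasureTheory ProbabilityTheory Set Real Filter InnerProductSpace
open scoped RealInnerProductSpace

lemma Q_deriv (x : ℝ) : HasDerivAt Q (-phi x) x := by
  have h : Q = fun x => Q 0 - ∫ s in (0:ℝ)..x, phi s := by
    funext y
    rcases le_total 0 y with h | h
    · have := Q_sub h; linarith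
    · have := Q_sub h
      rw [intervalIntegral.integral_symm] at this
      linarith
  rw [h]
  exact ((phi_cont.integral_hasStrictDerivAt 0 x).hasDerivAt).const_sub (Q 0)

lemma phi_le (x : ℝ) : phi x ≤ 1 / 2 := by
  rw [phi_eq]
  have h1 : exp (-x ^ 2 / 2) ≤ 1 := by
    rw [exp_le_one_iff]; nlinarith [sq_nonneg x]
  have h2 : (√(2 * π))⁻¹ ≤ 1 / 2 := by
    rw [one_div]
    apply inv_anti₀ (by norm_num)
    rw [Real.le_sqrt' (by norm_num)]
    nlinarith [Real.pi_gt_three]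
  have h3 : 0 ≤ (√(2 * π))⁻¹ := by positivity
  have h4 : 0 < exp (-x ^ 2 / 2) := exp_pos _
  nlinarith

lemma phi_tendsto : Tendsto phi atTop (nhds 0) := by
  have h : phi = fun x => (√(2 * π))⁻¹ * exp (-x ^ 2 / 2) := funext phi_eq
  rw [h]
  have h1 : Tendsto (fun x : ℝ => -x ^ 2 / 2) atTop atBot := by
    have h2 : Tendsto (fun x : ℝ => x ^ 2) atTop atTop := tendsto_pow_atTop (by norm_num)
    have h3 := (tendsto_neg_atTop_atBot.comp h2).atBot_div_const (by norm_num : (0:ℝ) < 2)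
    exact h3
  simpa using (tendsto_exp_atBot.comp h1).const_mul (√(2 * π))⁻¹

lemma xphi_integrable : Integrable (fun x => |x| * phi x) := by
  have h := (integrable_mul_exp_neg_mul_sq (b := 1 / 2) (by norm_num)).norm.const_mul
    (√(2 * π))⁻¹
  refine h.congr (ae_of_all _ fun x => ?_)
  simp only []
  rw [phi_eq, norm_mul, Real.norm_eq_abs, Real.norm_of_nonneg (exp_pos _).le]
  have : -(1 / 2) * x ^ 2 = -x ^ 2 / 2 := by ring
  rw [this]; ring

lemma kk_deriv {a ρ x : ℝ} (h : 0 < 1 - ρ ^ 2) :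
    HasDerivAt (fun ρ => kk a ρ x) (-((x - ρ * a) / (√(1 - ρ ^ 2)) ^ 3)) ρ := by
  have hs0 : 0 < √(1 - ρ ^ 2) := Real.sqrt_pos.2 h
  have hs2 : √(1 - ρ ^ 2) ^ 2 = 1 - ρ ^ 2 := Real.sq_sqrt h.le
  have h1 : HasDerivAt (fun ρ : ℝ => 1 - ρ ^ 2) (-(2 * ρ)) ρ := by
    have := (hasDerivAt_pow 2 ρ).const_sub 1
    refine this.congr_deriv ?_
    norm_num
  have h2 := h1.sqrt h.ne'
  have h3 : HasDerivAt (fun ρ : ℝ => a - ρ * x) (-x) ρ := by
    have := ((hasDerivAt_id ρ).mul_const x).const_sub a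
    refine this.congr_deriv ?_
    ring
  have h4 := h3.div h2 hs0.ne'
  refine h4.congr_deriv ?_
  set s := √(1 - ρ ^ 2) with hs
  field_simp
  rw [hs2]
  ring

lemma kk_deriv_x {a ρ x : ℝ} (h : 0 < 1 - ρ ^ 2) :
    HasDerivAt (fun x => kk a ρ x) (-(ρ / √(1 - ρ ^ 2))) x := by
  have h3 : HasDerivAt (fun x : ℝ => a - ρ * x) (-ρ) x := by
    have := ((hasDerivAt_id x).const_mul ρ).const_sub a
    refine this.congr_deriv ?_
    ring
  have h4 := h3.div_const (√(1 - ρ ^ 2))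
  refine h4.congr_deriv ?_
  ring

/-- The derivative of `Q2` in the correlation. -/
noncomputable def phi2 (a ρ : ℝ) : ℝ := (√(1 - ρ ^ 2))⁻¹ * (phi a * phi (kk a ρ a))

/-- The integrand of the derivative. -/
noncomputable def dF (a ρ x : ℝ) : ℝ := phi x * phi (kk a ρ x) * ((x - ρ * a) / (√(1 - ρ ^ 2)) ^ 3)

lemma G_deriv {a ρ x : ℝ} (h : 0 < 1 - ρ ^ 2) :
    HasDerivAt (fun x => -((√(1 - ρ ^ 2))⁻¹ * (phi x * phi (kk a ρ x)))) (dF a ρ x) x := by
  have hs0 : 0 < √(1 - ρ ^ 2) := Real.sqrt_pos.2 h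
  have hs2 : √(1 - ρ ^ 2) ^ 2 = 1 - ρ ^ 2 := Real.sq_sqrt h.le
  have h1 : HasDerivAt (fun x => phi (kk a ρ x)) (-(kk a ρ x * phi (kk a ρ x)) *
      (-(ρ / √(1 - ρ ^ 2)))) x := (phi_deriv (kk a ρ x)).comp x (kk_deriv_x h)
  have h2 := (((phi_deriv x).mul h1).const_mul (√(1 - ρ ^ 2))⁻¹).neg
  refine h2.congr_deriv ?_
  unfold dF
  have hk : kk a ρ x = (a - ρ * x) / √(1 - ρ ^ 2) := rfl
  set p := phi (kk a ρ x)
  rw [hk]
  set s := √(1 - ρ ^ 2) with hs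
  field_simp
  have : s ^ 2 * x = (1 - ρ ^ 2) * x := by rw [hs2]
  linear_combination (phi x * p) * this

lemma dF_bound {a ρ x : ℝ} (h : |ρ| ≤ 3 / 4) : ‖dF a ρ x‖ ≤ 4 * ((|x| + |a|) * phi x) := by
  have h0 : (7:ℝ) / 16 ≤ 1 - ρ ^ 2 := by
    have := abs_le.1 h; nlinarith
  have hs : (13:ℝ) / 20 ≤ √(1 - ρ ^ 2) := by
    rw [Real.le_sqrt' (by norm_num)]; nlinarith
  have hs3 : (1:ℝ) / 8 ≤ √(1 - ρ ^ 2) ^ 3 := by
    have : ((13:ℝ) / 20) ^ 3 ≤ √(1 - ρ ^ 2) ^ 3 := pow_le_pow_left₀ (by norm_num) hs 3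
    norm_num at this ⊢
    linarith
  unfold dF
  rw [norm_mul, norm_mul, norm_div, Real.norm_of_nonneg (phi_pos x).le,
    Real.norm_of_nonneg (phi_pos _).le, Real.norm_of_nonneg (by positivity : (0:ℝ) ≤ √(1 - ρ ^ 2) ^ 3)]
  have h1 : ‖x - ρ * a‖ ≤ |x| + |a| := by
    rw [Real.norm_eq_abs]
    calc |x - ρ * a| ≤ |x| + |ρ * a| := abs_sub _ _
      _ ≤ |x| + |a| := by
        rw [abs_mul]
        nlinarith [abs_nonneg a, abs_nonneg x]
  have h2 : ‖x - ρ * a‖ / √(1 - ρ ^ 2) ^ 3 ≤ 8 * (|x| + |a|) := by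
    rw [div_le_iff₀ (by positivity)]
    have : 0 ≤ |x| + |a| := by positivity
    nlinarith
  have h3 := phi_le (kk a ρ x)
  have h4 := (phi_pos (kk a ρ x)).le
  have h5 := (phi_pos x).le
  have h6 : 0 ≤ ‖x - ρ * a‖ / √(1 - ρ ^ 2) ^ 3 := by positivity
  calc phi x * phi (kk a ρ x) * (‖x - ρ * a‖ / √(1 - ρ ^ 2) ^ 3)
      ≤ phi x * (1 / 2) * (8 * (|x| + |a|)) := by gcongr
    _ = 4 * ((|x| + |a|) * phi x) := by ring

lemma bound_integrable (a : ℝ) : Integrable (fun x => 4 * ((|x| + |a|) * phi x)) := by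
  have := (xphi_integrable.add (phi_integrable.const_mul |a|)).const_mul 4
  refine this.congr (ae_of_all _ fun x => ?_)
  simp only [Pi.add_apply]
  ring

lemma dF_meas (a ρ : ℝ) : AEStronglyMeasurable (dF a ρ) (volume.restrict (Ioi a)) := by
  have hk : Continuous (kk a ρ) := by unfold kk; fun_prop
  have : Continuous (dF a ρ) := by
    unfold dF
    have := phi_cont.comp hk
    exact (phi_cont.mul this).mul (by fun_prop)
  exact this.aestronglyMeasurable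

lemma dF_integral {a ρ : ℝ} (h : |ρ| ≤ 3 / 4) : ∫ x in Ioi a, dF a ρ x = phi2 a ρ := by
  have h0 : 0 < 1 - ρ ^ 2 := by
    have := abs_le.1 h; nlinarith
  have hint : IntegrableOn (dF a ρ) (Ioi a) := by
    refine Integrable.mono' (bound_integrable a).integrableOn (dF_meas a ρ) ?_
    exact ae_of_all _ fun x => dF_bound h
  have hlim : Tendsto (fun x => -((√(1 - ρ ^ 2))⁻¹ * (phi x * phi (kk a ρ x)))) atTop (nhds 0) := by
    have h1 : Tendsto (fun x => phi x * phi (kk a ρ x)) atTop (nhds 0) := by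
      refine squeeze_zero (fun x => mul_nonneg (phi_pos x).le (phi_pos _).le) (g := phi)
        (fun x => ?_) phi_tendsto
      have := phi_le (kk a ρ x)
      have := (phi_pos x).le
      nlinarith
    simpa using (h1.const_mul (√(1 - ρ ^ 2))⁻¹).neg
  have := integral_Ioi_of_hasDerivAt_of_tendsto' (a := a)
    (f := fun x => -((√(1 - ρ ^ 2))⁻¹ * (phi x * phi (kk a ρ x)))) (f' := dF a ρ)
    (fun x _ => G_deriv h0) hint hlim
  rw [this, phi2]
  ring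

lemma Q2_deriv {a ρ : ℝ} (h : |ρ| ≤ 1 / 2) : HasDerivAt (Q2 a) (phi2 a ρ) ρ := by
  have hF : ∀ ρ', AEStronglyMeasurable (fun x => phi x * Q (kk a ρ' x))
      (volume.restrict (Ioi a)) := by
    intro ρ'
    have hk : Continuous (kk a ρ') := by unfold kk; fun_prop
    exact (phi_cont.measurable.mul (Q_meas.comp hk.measurable)).aestronglyMeasurable
  have hint : Integrable (fun x => phi x * Q (kk a ρ x)) (volume.restrict (Ioi a)) := by
    refine Integrable.mono' phi_integrable.integrableOn (hF ρ) ?_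
    refine ae_of_all _ fun x => ?_
    rw [norm_mul, Real.norm_of_nonneg (phi_pos x).le, Real.norm_of_nonneg (Q_nonneg _)]
    exact mul_le_of_le_one_right (phi_pos x).le (Q_le_one _)
  have hball : ∀ ρ' ∈ Metric.ball ρ (1 / 4), |ρ'| ≤ 3 / 4 := by
    intro ρ' hρ'
    rw [Metric.mem_ball, Real.dist_eq] at hρ'
    have := abs_sub_abs_le_abs_sub ρ' ρ
    linarith
  have key := hasDerivAt_integral_of_dominated_loc_of_deriv_le (μ := volume.restrict (Ioi a))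
    (F := fun ρ x => phi x * Q (kk a ρ x)) (F' := fun ρ x => dF a ρ x) (x₀ := ρ)
    (s := Metric.ball ρ (1 / 4))
    (bound := fun x => 4 * ((|x| + |a|) * phi x)) (Metric.ball_mem_nhds ρ (by norm_num))
    (Eventually.of_forall hF) hint (dF_meas a ρ)
    (ae_of_all _ fun x ρ' hρ' => dF_bound (hball ρ' hρ')) (bound_integrable a).integrableOn
    (ae_of_all _ fun x ρ' hρ' => by
      have h1 := hball ρ' hρ'
      have h0 : 0 < 1 - ρ' ^ 2 := by
        have := abs_le.1 h1; nlinarith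
      have := ((Q_deriv (kk a ρ' x)).comp ρ' (kk_deriv (x := x) (a := a) h0)).const_mul (phi x)
      refine this.congr_deriv ?_
      unfold dF
      ring)
  have h2 := key.2
  rw [dF_integral (by linarith)] at h2
  exact h2

lemma phi2_bound {a ρ r : ℝ} (h : |ρ| ≤ r) (hr : r ≤ 1 / 2) :
    ‖phi2 a ρ‖ ≤ (1 / 5) * exp (-a ^ 2 / (1 + r)) := by
  have h0 : (3:ℝ) / 4 ≤ 1 - ρ ^ 2 := by
    have := abs_le.1 h; nlinarith
  have hs : (43:ℝ) / 50 ≤ √(1 - ρ ^ 2) := by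
    rw [Real.le_sqrt' (by norm_num)]; nlinarith
  have hs2 : √(1 - ρ ^ 2) ^ 2 = 1 - ρ ^ 2 := Real.sq_sqrt (by linarith)
  have habs := abs_le.1 h
  have h1r : 0 < 1 + ρ := by linarith
  have h2r : 0 < 1 - ρ := by linarith
  have hk : kk a ρ a ^ 2 = a ^ 2 * ((1 - ρ) / (1 + ρ)) := by
    unfold kk
    rw [div_pow, hs2]
    field_simp
    ring
  unfold phi2
  rw [Real.norm_of_nonneg (by have := (phi_pos a).le; have := (phi_pos (kk a ρ a)).le; positivity)]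
  rw [phi_eq, phi_eq, hk]
  have e1 : (√(2 * π))⁻¹ * exp (-a ^ 2 / 2) * ((√(2 * π))⁻¹ * exp (-(a ^ 2 * ((1 - ρ) / (1 + ρ))) / 2))
      = (2 * π)⁻¹ * exp (-a ^ 2 / (1 + ρ)) := by
    have e2 : exp (-a ^ 2 / (1 + ρ)) = exp (-a ^ 2 / 2) * exp (-(a ^ 2 * ((1 - ρ) / (1 + ρ))) / 2) := by
      rw [← exp_add]
      congr 1
      field_simp
      ring
    have e3 : (√(2 * π))⁻¹ * (√(2 * π))⁻¹ = (2 * π)⁻¹ := by
      rw [← mul_inv, Real.mul_self_sqrt (by positivity)]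
    rw [e2, ← e3]; ring
  rw [e1]
  have e4 : exp (-a ^ 2 / (1 + ρ)) ≤ exp (-a ^ 2 / (1 + r)) := by
    rw [exp_le_exp, neg_div, neg_div, neg_le_neg_iff]
    gcongr
    linarith
  have e5 : (√(1 - ρ ^ 2))⁻¹ ≤ 50 / 43 := by
    rw [show (50:ℝ) / 43 = (43 / 50)⁻¹ by norm_num]
    exact inv_anti₀ (by norm_num) hs
  have e6 : (2 * π)⁻¹ ≤ 4 / 25 := by
    rw [show (4:ℝ) / 25 = (25 / 4)⁻¹ by norm_num]
    exact inv_anti₀ (by norm_num) (by nlinarith [Real.pi_gt_d2])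
  calc (√(1 - ρ ^ 2))⁻¹ * ((2 * π)⁻¹ * exp (-a ^ 2 / (1 + ρ)))
      ≤ (50 / 43) * ((4 / 25) * exp (-a ^ 2 / (1 + r))) := by gcongr
    _ ≤ (1 / 5) * exp (-a ^ 2 / (1 + r)) := by
      have := exp_pos (-a ^ 2 / (1 + r))
      nlinarith

lemma Q2_zero (a : ℝ) : Q2 a 0 = Q a ^ 2 := by
  have h : ∀ x, kk a 0 x = a := by intro x; simp [kk]
  unfold Q2
  simp_rw [h]
  rw [integral_mul_const, ← Q_eq]
  ring

lemma Q2_sub {a ρ r : ℝ} (h : |ρ| ≤ r) (hr : r ≤ 1 / 2) :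
    |Q2 a ρ - Q a ^ 2| ≤ r * ((1 / 5) * exp (-a ^ 2 / (1 + r))) := by
  have hr0 : 0 ≤ r := (abs_nonneg _).trans h
  have key := (convex_Icc (-r) r).norm_image_sub_le_of_norm_hasDerivWithin_le (f := Q2 a)
    (f' := phi2 a) (C := (1 / 5) * exp (-a ^ 2 / (1 + r))) (x := 0) (y := ρ)
    (fun y hy => (Q2_deriv ((abs_le.2 hy).trans hr)).hasDerivWithinAt)
    (fun y hy => phi2_bound (abs_le.2 hy) hr)
    ⟨by linarith, hr0⟩ (abs_le.1 h)
  rw [Q2_zero, Real.norm_eq_abs, sub_zero, Real.norm_eq_abs] at key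
  refine key.trans ?_
  rw [mul_comm]
  gcongr

/-- Relative form. -/
lemma Q2_rel {a ρ r : ℝ} (ha : 0 ≤ a) (h : |ρ| ≤ r) (hr : r ≤ 1 / 2) :
    |Q2 a ρ - Q a ^ 2| ≤ 2 * r * (a + 1) ^ 2 * exp (r * a ^ 2) * Q a ^ 2 := by
  have hr0 : 0 ≤ r := (abs_nonneg _).trans h
  refine (Q2_sub h hr).trans ?_
  have h1 := Q_ge_exp ha
  have h2 : (exp (-a ^ 2 / 2) / (3 * (a + 1))) ^ 2 ≤ Q a ^ 2 :=
    pow_le_pow_left₀ (by positivity) h1 2
  have h3 : (exp (-a ^ 2 / 2) / (3 * (a + 1))) ^ 2 = exp (-a ^ 2) / (9 * (a + 1) ^ 2) := by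
    rw [div_pow, ← exp_nat_mul]
    congr 1
    · congr 1; push_cast; ring
    · ring
  rw [h3, div_le_iff₀ (by positivity)] at h2
  have h4 : exp (-a ^ 2 / (1 + r)) ≤ exp (r * a ^ 2) * exp (-a ^ 2) := by
    rw [← exp_add, exp_le_exp, div_le_iff₀ (by linarith)]
    nlinarith [sq_nonneg a, mul_nonneg hr0 (sq_nonneg a), mul_nonneg (mul_nonneg hr0 hr0) (sq_nonneg a)]
  have h5 : 0 < exp (r * a ^ 2) := exp_pos _
  calc r * ((1 / 5) * exp (-a ^ 2 / (1 + r)))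
      ≤ r * ((1 / 5) * (exp (r * a ^ 2) * exp (-a ^ 2))) := by gcongr
    _ ≤ r * ((1 / 5) * (exp (r * a ^ 2) * (Q a ^ 2 * (9 * (a + 1) ^ 2)))) := by gcongr
    _ ≤ 2 * r * (a + 1) ^ 2 * exp (r * a ^ 2) * Q a ^ 2 := by
      have : 0 ≤ r * exp (r * a ^ 2) * Q a ^ 2 * (a + 1) ^ 2 := by positivity
      nlinarith

variable {E : Type*} [NormedAddCommGroup E] [InnerProductSpace ℝ E] [FiniteDimensional ℝ E]
  [MeasurableSpace E] [BorelSpace E]

/-- Two nearly orthogonal half-spaces. -/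
theorem tail_two_rel {u v : E} (hu : ‖u‖ = 1) (hv : ‖v‖ = 1) {a r : ℝ} (ha : 0 ≤ a)
    (h : |⟪u, v⟫| ≤ r) (hr : r ≤ 1 / 2) :
    |(stdGaussian E).real {z | a ≤ ⟪u, z⟫ ∧ a ≤ ⟪v, z⟫} - Q a ^ 2| ≤
      2 * r * (a + 1) ^ 2 * exp (r * a ^ 2) * Q a ^ 2 := by
  rw [tail_two hu hv a (by linarith)]
  exact Q2_rel ha h hr

/-- Crude bound for two half-spaces. -/
theorem tail_two_crude {u v : E} (hu : ‖u‖ = 1) (hv : ‖v‖ = 1) {a : ℝ} (ha : 0 < a)
    (h : -1 < ⟪u, v⟫) :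
    (stdGaussian E).real {z | a ≤ ⟪u, z⟫ ∧ a ≤ ⟪v, z⟫} ≤ exp (-a ^ 2 / (1 + ⟪u, v⟫)) := by
  set ρ := ⟪u, v⟫ with hρ
  have huu : ⟪u, u⟫ = 1 := by rw [real_inner_self_eq_norm_sq, hu]; norm_num
  have hvv : ⟪v, v⟫ = 1 := by rw [real_inner_self_eq_norm_sq, hv]; norm_num
  have hn2 : ‖u + v‖ ^ 2 = 2 + 2 * ρ := by
    rw [← real_inner_self_eq_norm_sq, inner_add_left, inner_add_right, inner_add_right, huu, hvv,
      real_inner_comm u v, ← hρ]
    ring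
  have hn : 0 < ‖u + v‖ := by
    have := norm_nonneg (u + v)
    rcases this.lt_or_eq with h' | h'
    · exact h'
    · rw [← h'] at hn2; nlinarith
  set w : E := ‖u + v‖⁻¹ • (u + v) with hw
  have hw1 : ‖w‖ = 1 := by rw [hw, norm_smul, norm_inv, norm_norm, inv_mul_cancel₀ hn.ne']
  have hsub : {z : E | a ≤ ⟪u, z⟫ ∧ a ≤ ⟪v, z⟫} ⊆ {z | 2 * a / ‖u + v‖ ≤ ⟪w, z⟫} := by
    rintro z ⟨h1, h2⟩
    simp only [mem_setOf_eq]
    rw [hw, inner_smul_left, inner_add_left, div_eq_inv_mul]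
    simp only [conj_trivial]
    gcongr
    linarith
  refine (measureReal_mono hsub).trans ?_
  rw [tail_one hw1]
  refine (Q_le_exp (by positivity)).trans (le_of_eq ?_)
  congr 1
  rw [div_pow, hn2]
  field_simp

/-- Opposite half-spaces. -/
theorem tail_two_opp {u v : E} (hu : ‖u‖ = 1) (hv : ‖v‖ = 1) {a : ℝ} (ha : 0 < a)
    (h : ⟪u, v⟫ = -1) :
    (stdGaussian E).real {z | a ≤ ⟪u, z⟫ ∧ a ≤ ⟪v, z⟫} = 0 := by
  have huu : ⟪u, u⟫ = 1 := by rw [real_inner_self_eq_norm_sq, hu]; norm_num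
  have hvv : ⟪v, v⟫ = 1 := by rw [real_inner_self_eq_norm_sq, hv]; norm_num
  have hn2 : ‖u + v‖ ^ 2 = 0 := by
    rw [← real_inner_self_eq_norm_sq, inner_add_left, inner_add_right, inner_add_right, huu, hvv,
      real_inner_comm u v, h]
    ring
  have hz : u + v = 0 := by simpa using hn2
  have he : {z : E | a ≤ ⟪u, z⟫ ∧ a ≤ ⟪v, z⟫} = ∅ := by
    ext z
    simp only [mem_setOf_eq, mem_empty_iff_false, iff_false, not_and]
    intro h1 h2
    have : ⟪u + v, z⟫ = 0 := by rw [hz, inner_zero_left]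
    rw [inner_add_left] at this
    linarith
  rw [he, measureReal_empty]

end Pool.Agent.H32.RGG
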